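import Pool.Agent.Helper8.UC.Loc
import Pool.Agent.Helper50.DA.DivVecL

/-!
UC, piece U3: the divergence of the vector density of `φ ∇φ ∧ adj(M) F` up to lower order terms.
-/

set_option autoImplicit false
set_option linter.unusedSimpArgs false

open scoped Manifold ContDiff

namespace Pool.Agent.Helper33.UC

open Pool.Agent.Helper8.DC Pool.Agent.Helper8.UC Pool.Agent.Helper50.DA
open Pool.Agent.Helper33.DA (trip_add_cov trip_sub_phi)

noncomputable section

/-! ### Bounds -/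

theorem wedge3_le {β x : Fin 4 → ℝ} {C : Fin 4 → Fin 4 → ℝ} {B : ℝ} (hβ : ∀ m, |β m| ≤ 1)
    (hC : ∀ l m, |C l m| ≤ B) : |wedge3 β x C| ≤ 3 * B * ∑ m, |x m| := by
  have hw : ∀ l m, |wed β x l m| ≤ |x l| + |x m| := by
    intro l m
    unfold wed
    refine (abs_sub _ _).trans ?_
    rw [abs_mul, abs_mul]
    have h1 := mul_le_mul_of_nonneg_right (hβ l) (abs_nonneg (x m))
    have h2 := mul_le_mul_of_nonneg_right (hβ m) (abs_nonneg (x l))
    linarith
  have t : ∀ l m p q, |wed β x l m * C p q| ≤ (|x l| + |x m|) * B := by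
    intro l m p q
    rw [abs_mul]
    exact mul_le_mul (hw l m) (hC p q) (abs_nonneg _) (by positivity)
  unfold wedge3 wedge
  have a1 := abs_le.1 (t 0 1 2 3)
  have a2 := abs_le.1 (t 0 2 1 3)
  have a3 := abs_le.1 (t 0 3 1 2)
  have a4 := abs_le.1 (t 1 2 0 3)
  have a5 := abs_le.1 (t 1 3 0 2)
  have a6 := abs_le.1 (t 2 3 0 1)
  rw [abs_le, Fin.sum_univ_four]
  constructor <;> nlinarith [a1.1, a1.2, a2.1, a2.2, a3.1, a3.2, a4.1, a4.2, a5.1, a5.2, a6.1, a6.2]

theorem trip_le {φ : R3} {β : Fin 4 → ℝ} {α : Fin 4 → R3} {F : Fin 4 → Fin 4 → R3} {B : ℝ}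
    (hB : 0 ≤ B) (hβ : ∀ m, |β m| ≤ 1) (hF : ∀ l m a, |F l m a| ≤ B) :
    |trip φ β α F| ≤ 6 * B * (∑ a, |φ a|) * ∑ m, ∑ a, |α m a| := by
  have hS : ∀ b c, |wedge3 β (cm1 α b) (cmp F c)| ≤ 3 * B * ∑ m, ∑ a, |α m a| := by
    intro b c
    refine (wedge3_le hβ fun l m => hF l m c).trans ?_
    refine mul_le_mul_of_nonneg_left ?_ (by positivity)
    refine Finset.sum_le_sum fun m _ => ?_
    exact Finset.single_le_sum (f := fun a => |α m a|) (fun a _ => abs_nonneg _)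
      (Finset.mem_univ b)
  set S := 3 * B * ∑ m, ∑ a, |α m a| with hSdef
  have hd : ∀ b c b' c', |wedge3 β (cm1 α b) (cmp F c) - wedge3 β (cm1 α b') (cmp F c')| ≤
      2 * S := by
    intro b c b' c'
    refine (abs_sub _ _).trans ?_
    linarith [hS b c, hS b' c']
  have ht : ∀ a b c b' c', |φ a * (wedge3 β (cm1 α b) (cmp F c) -
      wedge3 β (cm1 α b') (cmp F c'))| ≤ |φ a| * (2 * S) := by
    intro a b c b' c'
    rw [abs_mul]
    exact mul_le_mul_of_nonneg_left (hd b c b' c') (abs_nonneg _)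
  unfold trip
  refine (abs_add_three _ _ _).trans ?_
  have h0 := ht 0 1 2 2 1
  have h1 := ht 1 2 0 0 2
  have h2 := ht 2 0 1 1 0
  have e : 6 * B * (∑ a, |φ a|) * ∑ m, ∑ a, |α m a| = |φ 0| * (2 * S) + |φ 1| * (2 * S) +
      |φ 2| * (2 * S) := by
    rw [hSdef, Fin.sum_univ_three]
    ring
  rw [e]
  linarith

theorem cross_le {u v : R3} {B : ℝ} (hB : 0 ≤ B) (hu : ∀ a, |u a| ≤ B) :
    ∑ a, |crossProduct u v a| ≤ 2 * B * ∑ a, |v a| := by
  have t : ∀ a b, |u a * v b| ≤ B * |v b| := by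
    intro a b
    rw [abs_mul]
    exact mul_le_mul_of_nonneg_right (hu a) (abs_nonneg _)
  rw [Fin.sum_univ_three, Fin.sum_univ_three, g_cr0, g_cr1, g_cr2]
  have h0 := (abs_sub (u 1 * v 2) (u 2 * v 1)).trans (add_le_add (t 1 2) (t 2 1))
  have h1 := (abs_sub (u 2 * v 0) (u 0 * v 2)).trans (add_le_add (t 2 0) (t 0 2))
  have h2 := (abs_sub (u 0 * v 1) (u 1 * v 0)).trans (add_le_add (t 0 1) (t 1 0))
  linarith

theorem sum_abs_add_le (u v : R3) : ∑ a, |(u + v) a| ≤ ∑ a, |u a| + ∑ a, |v a| := by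
  rw [← Finset.sum_add_distrib]
  exact Finset.sum_le_sum fun a _ => abs_add_le _ _

theorem sum_abs_sub_le (u v : R3) : ∑ a, |(u - v) a| ≤ ∑ a, |u a| + ∑ a, |v a| := by
  rw [← Finset.sum_add_distrib]
  exact Finset.sum_le_sum fun a _ => abs_sub _ _

theorem single_le (l m : Fin 4) : |(Pi.single l (1 : ℝ) : Fin 4 → ℝ) m| ≤ 1 := by
  by_cases h : m = l
  · subst h; simp
  · simp [Pi.single_eq_of_ne h]

/-! ### Algebra -/

theorem sum_trip_self (c : Fin 4 → R3) (T : Fin 4 → Fin 4 → R3) :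
    ∑ l, trip (c l) (Pi.single l 1) c T = quad c T := by
  simp only [Fin.sum_univ_four, trip, quad, wedge3, wedge, wed, cm1,
    Pool.Agent.Helper8.DC.cmp, Pi.single_apply]
  simp only [Fin.isValue, if_true, if_false, Fin.reduceEq, one_mul, zero_mul, zero_sub, sub_zero,
    ite_true, ite_false, mul_one, mul_zero, sub_self, zero_add, add_zero, neg_mul, neg_zero]
  ring

theorem sum_trip_symm (φ : R3) (H : Fin 4 → Fin 4 → R3) (T : Fin 4 → Fin 4 → R3)
    (hH : ∀ l m, H l m = H m l) : ∑ l, trip φ (Pi.single l 1) (H l) T = 0 := by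
  simp only [Fin.sum_univ_four, trip, wedge3, wedge, wed, cm1,
    Pool.Agent.Helper8.DC.cmp, Pi.single_apply]
  simp only [Fin.isValue, if_true, if_false, Fin.reduceEq, one_mul, zero_mul, zero_sub, sub_zero,
    ite_true, ite_false, mul_one, mul_zero, sub_self, zero_add, add_zero, neg_mul, neg_zero]
  rw [hH 1 0, hH 2 0, hH 3 0, hH 2 1, hH 3 1, hH 3 2]
  ring

/-! ### Smoothness -/

theorem sm_gram {U : Set E4} (hU : IsOpen U) {A : E4 → Fin 4 → R3} (hA : ContDiffOn ℝ ∞ A U)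
    (a b : Fin 3) : ContDiffOn ℝ ∞ (fun y => gram (curv A y) a b) U := by
  unfold gram
  exact sm_wedge (fun l m => contDiffOn_pi.mp (sm_curv hU hA l m) a)
    (fun l m => contDiffOn_pi.mp (sm_curv hU hA l m) b)

theorem sm_adj {U : Set E4} (hU : IsOpen U) {A : E4 → Fin 4 → R3} (hA : ContDiffOn ℝ ∞ A U)
    (a b : Fin 3) : ContDiffOn ℝ ∞ (fun y => (gram (curv A y)).adjugate a b) U := by
  have g := sm_gram hU hA
  simp only [Matrix.adjugate_fin_three]
  fin_cases a <;> fin_cases b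
  · exact ((g 1 1).mul (g 2 2)).sub ((g 1 2).mul (g 2 1))
  · exact (((g 0 1).mul (g 2 2)).neg).add ((g 0 2).mul (g 2 1))
  · exact ((g 0 1).mul (g 1 2)).sub ((g 0 2).mul (g 1 1))
  · exact (((g 1 0).mul (g 2 2)).neg).add ((g 1 2).mul (g 2 0))
  · exact ((g 0 0).mul (g 2 2)).sub ((g 0 2).mul (g 2 0))
  · exact (((g 0 0).mul (g 1 2)).neg).add ((g 0 2).mul (g 1 0))
  · exact ((g 1 0).mul (g 2 1)).sub ((g 1 1).mul (g 2 0))
  · exact (((g 0 0).mul (g 2 1)).neg).add ((g 0 1).mul (g 2 0))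
  · exact ((g 0 0).mul (g 1 1)).sub ((g 0 1).mul (g 1 0))

theorem sm_adjF {U : Set E4} (hU : IsOpen U) {A : E4 → Fin 4 → R3} (hA : ContDiffOn ℝ ∞ A U)
    (l m : Fin 4) : ContDiffOn ℝ ∞ (fun y => adjF (curv A y) l m) U := by
  refine contDiffOn_pi.mpr fun a => ?_
  show ContDiffOn ℝ ∞ (fun y => ∑ b, (gram (curv A y)).adjugate a b * curv A y l m b) U
  exact ContDiffOn.sum fun b _ => (sm_adj hU hA a b).mul (contDiffOn_pi.mp (sm_curv hU hA l m) b)

/-- A common bound for finitely many continuous functions on a compact set. -/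
theorem exists_bound {κ : Type} [Fintype κ] {K : Set E4} (hK : IsCompact K) {f : κ → E4 → ℝ}
    (hf : ∀ i, ContinuousOn (f i) K) : ∃ B : ℝ, 0 ≤ B ∧ ∀ i, ∀ y ∈ K, |f i y| ≤ B := by
  choose b hb using fun i => hK.exists_bound_of_continuousOn (hf i)
  refine ⟨∑ i, |b i|, Finset.sum_nonneg fun i _ => abs_nonneg _, fun i y hy => ?_⟩
  refine ((hb i y hy).trans (le_abs_self _)).trans ?_
  exact Finset.single_le_sum (f := fun i => |b i|) (fun i _ => abs_nonneg _) (Finset.mem_univ i)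

/-! ### The theorem -/

theorem div_vecB (A : E4 → Fin 4 → R3) (U : Set E4) (hU : IsOpen U) (hA : ContDiffOn ℝ ∞ A U)
    (K : Set E4) (hK : IsCompact K) (hKU : K ⊆ U) :
    ∃ C : ℝ, 0 ≤ C ∧ ∀ φ : E4 → R3, ContDiffOn ℝ ∞ φ U → ∀ y ∈ K,
      |∑ l, pd l (fun z => vecB A φ z l) y - quad (cov A φ y) (adjF (curv A y))| ≤
        C * (∑ a, |φ y a|) * (∑ a, |φ y a| + ∑ m, ∑ a, |cov A φ y m a|) := by
  have sA : ∀ m, ContDiffOn ℝ ∞ (fun z => A z m) U := fun m => contDiffOn_pi.mp hA m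
  have sT := fun l m => sm_adjF hU hA l m
  obtain ⟨B1, hB1, b1⟩ := exists_bound (κ := Fin 4 × Fin 3) hK
    (f := fun i y => A y i.1 i.2) fun i =>
    (contDiffOn_pi.mp (sA i.1) i.2).continuousOn.mono hKU
  obtain ⟨B2, hB2, b2⟩ := exists_bound (κ := Fin 4 × Fin 4 × Fin 3) hK
    (f := fun i y => pd i.1 (fun z => A z i.2.1) y i.2.2) fun i =>
    (contDiffOn_pi.mp (g_sm_pd i.1 hU (sA i.2.1)) i.2.2).continuousOn.mono hKU
  obtain ⟨B3, hB3, b3⟩ := exists_bound (κ := Fin 4 × Fin 4 × Fin 3) hK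
    (f := fun i y => adjF (curv A y) i.1 i.2.1 i.2.2) fun i =>
    (contDiffOn_pi.mp (sT i.1 i.2.1) i.2.2).continuousOn.mono hKU
  obtain ⟨B4, hB4, b4⟩ := exists_bound (κ := Fin 4 × Fin 4 × Fin 4 × Fin 3) hK
    (f := fun i y => pd i.1 (fun z => adjF (curv A z) i.2.1 i.2.2.1) y i.2.2.2) fun i =>
    (contDiffOn_pi.mp (g_sm_pd i.1 hU (sT i.2.1 i.2.2.1)) i.2.2.2).continuousOn.mono hKU
  refine ⟨4 * (12 * B1 * B3 + 48 * B2 * B3 + 48 * B1 * B3 + 96 * B1 ^ 2 * B3 + 6 * B4),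
    by positivity, fun φ hφ y hyK => ?_⟩
  have hy := hKU hyK
  -- differentiability
  have dA : ∀ m, DifferentiableAt ℝ (fun z => A z m) y := fun m => g_sm_diff hU (sA m) hy
  have dφ : DifferentiableAt ℝ φ y := g_sm_diff hU hφ hy
  have dpφ : ∀ m, DifferentiableAt ℝ (fun z => pd m φ z) y := fun m =>
    g_sm_diff hU (g_sm_pd m hU hφ) hy
  have dcov : ∀ m, DifferentiableAt ℝ (fun z => cov A φ z m) y := fun m =>
    (dpφ m).fun_add (g_cross_diff (dA m) dφ)
  have dT : ∀ m n, DifferentiableAt ℝ (fun z => adjF (curv A z) m n) y := fun m n =>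
    g_sm_diff hU (sT m n) hy
  have e1 : ∀ l, pd l φ y = cov A φ y l - crossProduct (A y l) (φ y) := by
    intro l
    unfold cov
    abel
  -- abbreviations
  set c : Fin 4 → R3 := cov A φ y with hc
  set T : Fin 4 → Fin 4 → R3 := adjF (curv A y) with hT
  set E : Fin 4 → Fin 4 → R3 := fun l m =>
    crossProduct (pd l (fun z => A z m) y) (φ y) +
      crossProduct (A y m) (c l - crossProduct (A y l) (φ y)) with hE
  set H : Fin 4 → Fin 4 → R3 := fun l m => pd l (fun z => pd m φ z) y with hH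
  set dT' : Fin 4 → Fin 4 → Fin 4 → R3 := fun l m n =>
    pd l (fun z => adjF (curv A z) m n) y with hdT'
  have pcov : ∀ l, (fun m => pd l (fun z => cov A φ z m) y) = fun m => H l m + E l m := by
    intro l
    funext m
    unfold cov
    rw [g_pd_add l (dpφ m) (g_cross_diff (dA m) dφ), g_pd_cross l (dA m) dφ, e1 l]
  have key : ∀ l, pd l (fun z => vecB A φ z l) y =
      trip (c l) (Pi.single l 1) c T - trip (crossProduct (A y l) (φ y)) (Pi.single l 1) c T +
      (trip (φ y) (Pi.single l 1) (H l) T + trip (φ y) (Pi.single l 1) (E l) T) +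
      trip (φ y) (Pi.single l 1) c (dT' l) := by
    intro l
    have ht := (d_trip l (Pi.single l 1) (φ := φ) (α := fun z => cov A φ z)
      (F := fun z => adjF (curv A z)) (y := y) dφ dcov dT).2
    unfold vecB
    rw [ht, e1 l, pcov l, trip_sub_phi, trip_add_cov]
  have hsum : ∑ l, pd l (fun z => vecB A φ z l) y - quad c T =
      ∑ l, (-trip (crossProduct (A y l) (φ y)) (Pi.single l 1) c T +
        trip (φ y) (Pi.single l 1) (E l) T + trip (φ y) (Pi.single l 1) c (dT' l)) := by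
    have h1 := sum_trip_self c T
    have h2 := sum_trip_symm (φ y) H T (fun l m => g_pd_comm l m hU hφ hy)
    simp only [key, Finset.sum_add_distrib, Finset.sum_sub_distrib, Finset.sum_neg_distrib, h1, h2]
    ring
  rw [hsum]
  -- the bounds
  set s := ∑ a, |φ y a| with hs
  set S := ∑ m, ∑ a, |c m a| with hS
  have hs0 : 0 ≤ s := Finset.sum_nonneg fun a _ => abs_nonneg _
  have hS0 : 0 ≤ S := Finset.sum_nonneg fun m _ => Finset.sum_nonneg fun a _ => abs_nonneg _
  have cA : ∀ l, ∑ a, |crossProduct (A y l) (φ y) a| ≤ 2 * B1 * s := fun l =>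
    cross_le hB1 fun a => b1 (l, a) y hyK
  have t1 : ∀ l, |trip (crossProduct (A y l) (φ y)) (Pi.single l 1) c T| ≤
      12 * B1 * B3 * s * S := by
    intro l
    refine (trip_le hB3 (single_le l) fun p r a => b3 (p, r, a) y hyK).trans ?_
    have h1 := mul_le_mul_of_nonneg_right (mul_le_mul_of_nonneg_left (cA l)
      (by positivity : (0 : ℝ) ≤ 6 * B3)) hS0
    calc 6 * B3 * (∑ a, |crossProduct (A y l) (φ y) a|) * S ≤ 6 * B3 * (2 * B1 * s) * S := h1
      _ = 12 * B1 * B3 * s * S := by ring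
  have hEb : ∀ l, ∑ m, ∑ a, |E l m a| ≤ 4 * (2 * B2 * s + 2 * B1 * (S + 2 * B1 * s)) := by
    intro l
    have h1 : ∀ m, ∑ a, |E l m a| ≤ 2 * B2 * s + 2 * B1 * (S + 2 * B1 * s) := by
      intro m
      refine (sum_abs_add_le _ _).trans ?_
      have h2 : ∑ a, |crossProduct (pd l (fun z => A z m) y) (φ y) a| ≤ 2 * B2 * s :=
        cross_le hB2 fun a => b2 (l, m, a) y hyK
      have h3 : ∑ a, |crossProduct (A y m) (c l - crossProduct (A y l) (φ y)) a| ≤
          2 * B1 * ∑ a, |(c l - crossProduct (A y l) (φ y)) a| :=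
        cross_le hB1 fun a => b1 (m, a) y hyK
      have h4 : ∑ a, |(c l - crossProduct (A y l) (φ y)) a| ≤ S + 2 * B1 * s := by
        refine (sum_abs_sub_le _ _).trans (add_le_add ?_ (cA l))
        exact Finset.single_le_sum (f := fun m => ∑ a, |c m a|)
          (fun m _ => Finset.sum_nonneg fun a _ => abs_nonneg _) (Finset.mem_univ l)
      have h5 := mul_le_mul_of_nonneg_left h4 (by positivity : (0 : ℝ) ≤ 2 * B1)
      linarith
    have h6 := Finset.sum_le_sum fun m (_ : m ∈ (Finset.univ : Finset (Fin 4))) => h1 m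
    refine h6.trans (le_of_eq ?_)
    rw [Finset.sum_const, Finset.card_univ, Fintype.card_fin]
    simp only [nsmul_eq_mul]
    push_cast
    ring
  have t2 : ∀ l, |trip (φ y) (Pi.single l 1) (E l) T| ≤
      (48 * B2 * B3 + 96 * B1 ^ 2 * B3) * s * s + 48 * B1 * B3 * s * S := by
    intro l
    refine (trip_le hB3 (single_le l) fun p r a => b3 (p, r, a) y hyK).trans ?_
    have h1 := mul_le_mul_of_nonneg_left (hEb l) (by positivity : (0 : ℝ) ≤ 6 * B3 * s)
    calc 6 * B3 * s * ∑ m, ∑ a, |E l m a| ≤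
        6 * B3 * s * (4 * (2 * B2 * s + 2 * B1 * (S + 2 * B1 * s))) := h1
      _ = (48 * B2 * B3 + 96 * B1 ^ 2 * B3) * s * s + 48 * B1 * B3 * s * S := by ring
  have t3 : ∀ l, |trip (φ y) (Pi.single l 1) c (dT' l)| ≤ 6 * B4 * s * S := fun l =>
    trip_le hB4 (single_le l) fun p r a => b4 (l, p, r, a) y hyK
  have t4 : ∀ l, |-trip (crossProduct (A y l) (φ y)) (Pi.single l 1) c T +
        trip (φ y) (Pi.single l 1) (E l) T + trip (φ y) (Pi.single l 1) c (dT' l)| ≤
      (12 * B1 * B3 + 48 * B2 * B3 + 48 * B1 * B3 + 96 * B1 ^ 2 * B3 + 6 * B4) * s * (s + S) := by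
    intro l
    refine (abs_add_three _ _ _).trans ?_
    rw [abs_neg]
    have h1 : 0 ≤ B1 * B3 * s * s := by positivity
    have h2 : 0 ≤ B2 * B3 * s * S := by positivity
    have h3 : 0 ≤ B1 ^ 2 * B3 * s * S := by positivity
    have h4 : 0 ≤ B4 * s * s := by positivity
    nlinarith [t1 l, t2 l, t3 l]
  refine (Finset.abs_sum_le_sum_abs _ _).trans ?_
  have h7 := Finset.sum_le_sum fun l (_ : l ∈ (Finset.univ : Finset (Fin 4))) => t4 l
  refine h7.trans (le_of_eq ?_)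
  rw [Finset.sum_const, Finset.card_univ, Fintype.card_fin]
  simp only [nsmul_eq_mul]
  push_cast
  ring

end

end Pool.Agent.Helper33.UC
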